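import Pool.Agent.Helper74_RL.Stmts

/-!
# Dense topological manifolds are open (module OPN, MP_62da59_gt)
-/

open Set Filter Topology

namespace Pool.Agent.RLim.H9

open Pool.Agent.RLim

theorem opn : OpnStmt := by
  intro X _ T hT hne
  obtain ⟨inst⟩ := hne
  have : LocallyCompactSpace T := ChartedSpace.locallyCompactSpace (EuclideanSpace ℝ (Fin 4)) T
  rw [isOpen_iff_mem_nhds]
  intro x hx
  obtain ⟨K, hK, hKx⟩ := exists_compact_mem_nhds (⟨x, hx⟩ : T)
  rw [nhds_subtype_eq_comap, mem_comap] at hKx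
  obtain ⟨V, hV, hVK⟩ := hKx
  obtain ⟨W, hWV, hWo, hxW⟩ := mem_nhds_iff.1 hV
  have hKc : IsCompact ((fun z : T => (z : X)) '' K) := hK.image continuous_subtype_val
  refine mem_of_superset (hWo.mem_nhds hxW) ?_
  intro y hy
  have h1 : y ∈ closure (W ∩ T) := hT.open_subset_closure_inter hWo hy
  have h2 : W ∩ T ⊆ (fun z : T => (z : X)) '' K := by
    rintro z ⟨hzW, hzT⟩
    exact ⟨⟨z, hzT⟩, hVK (hWV hzW), rfl⟩
  have h3 := (closure_minimal h2 hKc.isClosed) h1
  obtain ⟨z, _, rfl⟩ := h3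
  exact z.2

end Pool.Agent.RLim.H9
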